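import Pool.Agent.Helper50.BL.Stmts
import Pool.Agent.Helper50.BL.Base

/-! # One level: fine data with its cost -/

namespace Pool.Agent.Helper50.BL

open Finset
open scoped Classical

theorem one_fld {V J : Type} [Fintype V] [DecidableEq V] [Fintype J] [DecidableEq J]
    (S : J → Finset V) (Z : Finset J) (lam : J → ℝ) (x : V) :
    fld S lam univ x = fld S lam (univ \ Z) x + ∑ i ∈ Z.filter (fun i => x ∈ S i), lam i := by
  unfold fld
  rw [Finset.sum_filter, Finset.sum_filter, Finset.sum_filter]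
  exact (Finset.sum_sdiff (Finset.subset_univ Z)).symm

theorem one_pt {h w u : ℝ} (hh : 0 < h) (h1 : |h * u - w| ≤ 13 * h / 64) :
    |h * (round u : ℝ) - w| ≤ 3 / 4 * h ∧ (|w| < h / 4 → round u = 0) := by
  constructor
  · have h2 : |h * (round u : ℝ) - w| ≤ |h * (round u : ℝ) - h * u| + |h * u - w| :=
      abs_sub_le _ _ _
    have h3 : |h * (round u : ℝ) - h * u| ≤ h * (1 / 2) := by
      rw [← mul_sub, abs_mul, abs_of_pos hh, abs_sub_comm]
      exact mul_le_mul_of_nonneg_left (abs_sub_round u) hh.le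
    linarith
  · intro hw
    have h2 : |h * u| < h * (1 / 2) := by
      have h3 : |h * u| ≤ |h * u - w| + |w| := by
        have := abs_add_le (h * u - w) w
        simpa using this
      linarith
    rw [abs_mul, abs_of_pos hh] at h2
    have h4 : |u| < 1 / 2 := lt_of_mul_lt_mul_left h2 hh.le
    rw [abs_lt] at h4
    rw [round_eq_zero_iff]
    exact ⟨h4.1.le, h4.2⟩

theorem st_ONE (h1 : ST_RNF) : ST_ONE := by
  intro V J _ _ _ _ N S Z t K κ Ag h lam F ht hdeg hK hK0 hκ hAg hh hexp hF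
  obtain ⟨r, hr0, hr⟩ := h1 V J S Z lam t K κ Ag h ht hdeg hK hK0 hκ hAg hh hexp
  refine ⟨r, univ.filter (fun x => 9 * h / 64
            < |∑ i ∈ Z.filter (fun i => x ∈ S i), (h / Ag * (r i : ℝ) - lam i)|), hr0, ?_, ?_⟩
  · have h2 : ∑ i, cst κ (r i) = ∑ i ∈ Z, cst κ (r i) := by
      symm
      refine Finset.sum_subset (Finset.subset_univ Z) fun i _ hi => ?_
      rw [hr0 i hi]
      simp [cst]
    rw [h2]
    exact hr
  · intro x hx
    have hx' : |∑ i ∈ Z.filter (fun i => x ∈ S i), (h / Ag * (r i : ℝ) - lam i)|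
        ≤ 9 * h / 64 := by
      by_contra hc
      push Not at hc
      exact hx (Finset.mem_filter.2 ⟨Finset.mem_univ x, hc⟩)
    unfold finw
    refine one_pt hh ?_
    have h3 : h * (((∑ a ∈ F, N.φ a x : ℤ) : ℝ) / 16
        + 1 / Ag * ∑ i ∈ Z.filter (fun i => x ∈ S i), (r i : ℝ)) - fld S lam univ x
        = (h / 16 * ((∑ a ∈ F, N.φ a x : ℤ) : ℝ) - fld S lam (univ \ Z) x)
          + ∑ i ∈ Z.filter (fun i => x ∈ S i), (h / Ag * (r i : ℝ) - lam i) := by
      rw [one_fld S Z lam x, Finset.sum_sub_distrib, ← Finset.mul_sum]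
      ring
    rw [h3]
    have h4 := abs_add_le (h / 16 * ((∑ a ∈ F, N.φ a x : ℤ) : ℝ) - fld S lam (univ \ Z) x)
      (∑ i ∈ Z.filter (fun i => x ∈ S i), (h / Ag * (r i : ℝ) - lam i))
    have h5 := hF x
    linarith

end Pool.Agent.Helper50.BL
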