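import Pool.Agent.Helper47.BL.Defs

set_option autoImplicit false

/-! # NU: the numerical inequalities for large `x` -/

namespace Pool.Agent.Helper47.BL

open Filter

theorem nu_ev (δ : ℝ) (hδ : 0 < δ) : ∃ x₀ : ℝ, ∀ x : ℝ, x₀ ≤ x →
    1 ≤ x ∧ 9 ≤ Real.log (Real.log x) ∧ 6 ≤ Real.log x ∧
      Real.log (Real.log x) ≤ δ * Real.log x := by
  have h1 : Tendsto (fun x : ℝ => Real.log x) atTop atTop := Real.tendsto_log_atTop
  have h2 : ∀ᶠ L : ℝ in atTop, 9 ≤ Real.log L ∧ 6 ≤ L ∧ Real.log L ≤ δ * L := by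
    have h3 := (Real.isLittleO_log_id_atTop).bound hδ
    filter_upwards [h3, Real.tendsto_log_atTop.eventually_ge_atTop (9 : ℝ),
      eventually_ge_atTop (6 : ℝ)] with L h4 h5 h6
    refine ⟨h5, h6, ?_⟩
    rw [id, Real.norm_of_nonneg (by linarith), Real.norm_of_nonneg (by linarith)] at h4
    exact h4
  obtain ⟨x₀, hx₀⟩ := eventually_atTop.1 ((h1.eventually h2).and (eventually_ge_atTop (1 : ℝ)))
  exact ⟨x₀, fun x hx => ⟨(hx₀ x hx).2, (hx₀ x hx).1⟩⟩

theorem NU : ST_NU := by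
  intro c c' hc hcc'
  have hc' : 0 < c' := hc.trans hcc'
  -- the constants
  obtain ⟨κ, hκ⟩ : ∃ κ : ℝ, κ = min (c' / 100) (c' - c) := ⟨_, rfl⟩
  have hκ0 : 0 < κ := by
    rw [hκ]
    exact lt_min (by positivity) (by linarith)
  have hκ1 : κ ≤ c' / 100 := by rw [hκ]; exact min_le_left _ _
  have hκ2 : κ ≤ c' - c := by rw [hκ]; exact min_le_right _ _
  obtain ⟨δ, hδ⟩ : ∃ δ : ℝ, δ = min (κ ^ 2 / 16) (1 / (16 * c' ^ 2)) := ⟨_, rfl⟩
  have hδ0 : 0 < δ := by
    rw [hδ]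
    exact lt_min (by positivity) (by positivity)
  have hδ1 : δ ≤ κ ^ 2 / 16 := by rw [hδ]; exact min_le_left _ _
  have hδ2 : δ ≤ 1 / (16 * c' ^ 2) := by rw [hδ]; exact min_le_right _ _
  obtain ⟨x₀, hx₀⟩ := nu_ev δ hδ0
  refine ⟨x₀, fun x hx => ?_⟩
  obtain ⟨hx1, hl9, hL6, hlδ⟩ := hx₀ x hx
  have hx0 : 0 < x := by linarith
  obtain ⟨L, hL⟩ : ∃ L : ℝ, L = Real.log x := ⟨_, rfl⟩
  obtain ⟨l, hl⟩ : ∃ l : ℝ, l = Real.log L := ⟨_, rfl⟩
  rw [← hL, ← hl] at hlδ
  rw [← hL] at hL6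
  rw [← hL, ← hl] at hl9
  have hL0 : 0 < L := by linarith
  have hl0 : 0 < l := by linarith
  obtain ⟨s, hs⟩ : ∃ s : ℝ, s = √(L * l) := ⟨_, rfl⟩
  have hs0 : 0 < s := by
    rw [hs]
    exact Real.sqrt_pos.2 (by positivity)
  have hs2 : s ^ 2 = L * l := by
    rw [hs]
    exact Real.sq_sqrt (by positivity)
  have hyy : ∀ u : ℝ, yy u x = Real.exp (u * s) := by
    intro u
    unfold yy
    rw [← hL, ← hl, ← hs]
  -- `4 l ≤ κ s`
  have h4 : 4 * l ≤ κ * s := by
    refine abs_le_of_sq_le_sq' ?_ (by positivity) |>.2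
    have e1 : l * l ≤ κ ^ 2 / 16 * L * l := by
      refine mul_le_mul_of_nonneg_right ?_ hl0.le
      exact hlδ.trans (mul_le_mul_of_nonneg_right hδ1 hL0.le)
    calc (4 * l) ^ 2 = 16 * (l * l) := by ring
      _ ≤ 16 * (κ ^ 2 / 16 * L * l) := mul_le_mul_of_nonneg_left e1 (by norm_num)
      _ = κ ^ 2 * (L * l) := by ring
      _ = (κ * s) ^ 2 := by rw [mul_pow, hs2]
  -- `4 c' s ≤ L`
  have h5 : 4 * c' * s ≤ L := by
    refine abs_le_of_sq_le_sq' ?_ hL0.le |>.2
    have e1 : 16 * c' ^ 2 * (L * l) ≤ L ^ 2 := by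
      have e2 : l ≤ 1 / (16 * c' ^ 2) * L := hlδ.trans (mul_le_mul_of_nonneg_right hδ2 hL0.le)
      have e3 : 16 * c' ^ 2 * L * l ≤ 16 * c' ^ 2 * L * (1 / (16 * c' ^ 2) * L) :=
        mul_le_mul_of_nonneg_left e2 (by positivity)
      calc 16 * c' ^ 2 * (L * l) = 16 * c' ^ 2 * L * l := by ring
        _ ≤ 16 * c' ^ 2 * L * (1 / (16 * c' ^ 2) * L) := e3
        _ = L ^ 2 := by field_simp
    calc (4 * c' * s) ^ 2 = 16 * c' ^ 2 * s ^ 2 := by ring
      _ = 16 * c' ^ 2 * (L * l) := by rw [hs2]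
      _ ≤ L ^ 2 := e1
  have hLl : Real.exp l = L := by
    rw [hl, Real.exp_log hL0]
  have hLx : Real.exp L = x := by
    rw [hL, Real.exp_log hx0]
  have e9 : (4000 : ℝ) ≤ Real.exp 9 := by
    have h1 := Real.exp_one_gt_d9
    have h2 : Real.exp 9 = Real.exp 1 ^ (9 : ℕ) := by
      rw [← Real.exp_nat_mul]
      norm_num
    rw [h2]
    calc (4000 : ℝ) ≤ (2.7 : ℝ) ^ (9 : ℕ) := by norm_num
      _ ≤ _ := pow_le_pow_left₀ (by norm_num) (by linarith) 9
  have hexl : (4000 : ℝ) ≤ Real.exp l := e9.trans (Real.exp_le_exp.2 hl9)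
  have hL4 : (4000 : ℝ) ≤ L := by rwa [hLl] at hexl
  have hpow : ∀ (u v : ℝ), Real.exp (u * s) ^ v = Real.exp (u * v * s) := by
    intro u v
    rw [← Real.exp_mul]
    congr 1
    ring
  -- `4000 L ^ 3 ≤ exp (κ s)`
  have h6 : 4000 * L ^ 3 ≤ Real.exp (κ * s) := by
    calc 4000 * L ^ 3 ≤ Real.exp l * L ^ 3 := by
          exact mul_le_mul_of_nonneg_right hexl (by positivity)
      _ = Real.exp l ^ (4 : ℕ) := by rw [hLl]; ring
      _ = Real.exp (4 * l) := by
          rw [← Real.exp_nat_mul]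
          norm_num
      _ ≤ _ := Real.exp_le_exp.2 h4
  have hsqrt : √x = Real.exp (L / 2) := by
    rw [← hLx]
    rw [show Real.exp L = Real.exp (L / 2) ^ 2 by
      rw [← Real.exp_nat_mul]
      congr 1
      push_cast
      ring]
    exact Real.sqrt_sq (Real.exp_pos _).le
  refine ⟨by rw [← hL]; linarith, ?_, ?_, ?_, ?_⟩
  · rw [hyy]
    exact Real.one_lt_exp_iff.2 (by positivity)
  · rw [hyy, hpow, ← hL]
    calc 8 * L ^ 2 ≤ 4000 * L ^ 3 := by
          have : 0 ≤ L ^ 2 := by positivity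
          nlinarith
      _ ≤ Real.exp (κ * s) := h6
      _ ≤ _ := by
          refine Real.exp_le_exp.2 (mul_le_mul_of_nonneg_right ?_ hs0.le)
          linarith
  · rw [hyy, hsqrt, ← Real.exp_nat_mul]
    refine Real.exp_le_exp.2 ?_
    push_cast
    linarith
  · rw [hyy, hyy, ← hL]
    have e1 : 2 * √x ≤ x / Real.exp (c * s) / 2 := by
      rw [hsqrt, ← hLx, ← Real.exp_sub]
      have e2 : 4 * Real.exp (L / 2) ≤ Real.exp (L - c * s) := by
        have e3 : (4 : ℝ) ≤ Real.exp (L / 4) := by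
          have := Real.add_one_le_exp (L / 4)
          linarith
        have e4 : L / 4 + L / 2 ≤ L - c * s := by
          have : c * s ≤ c' * s := mul_le_mul_of_nonneg_right hcc'.le hs0.le
          linarith
        calc 4 * Real.exp (L / 2) ≤ Real.exp (L / 4) * Real.exp (L / 2) :=
              mul_le_mul_of_nonneg_right e3 (Real.exp_pos _).le
          _ = Real.exp (L / 4 + L / 2) := (Real.exp_add _ _).symm
          _ ≤ _ := Real.exp_le_exp.2 e4
      linarith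
    have e5 : x * (2000 * L ^ 3) / Real.exp (c' * s) ≤ x / Real.exp (c * s) / 2 := by
      have e6 : 4000 * L ^ 3 * Real.exp (c * s) ≤ Real.exp (c' * s) := by
        calc 4000 * L ^ 3 * Real.exp (c * s) ≤ Real.exp (κ * s) * Real.exp (c * s) :=
              mul_le_mul_of_nonneg_right h6 (Real.exp_pos _).le
          _ = Real.exp ((κ + c) * s) := by
              rw [← Real.exp_add]
              congr 1
              ring
          _ ≤ _ := by
              refine Real.exp_le_exp.2 (mul_le_mul_of_nonneg_right ?_ hs0.le)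
              linarith
      rw [div_div, div_le_div_iff₀ (Real.exp_pos _) (by positivity)]
      have e7 := mul_le_mul_of_nonneg_left e6 hx0.le
      calc x * (2000 * L ^ 3) * (Real.exp (c * s) * 2)
          = x * (4000 * L ^ 3 * Real.exp (c * s)) := by ring
        _ ≤ x * Real.exp (c' * s) := e7
    linarith

end Pool.Agent.Helper47.BL
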